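import Pool.Agent.Q85.Cor.Seq

set_option autoImplicit false

/-! # Negative correlations at large lags -/

open Filter Topology Finset

namespace Pool.Agent.Q85.Cor

lemma cov_zero (d : ℕ → ℝ) (N : ℕ) : cov d 0 N = W d 1 N := by
  unfold W
  simp

/-- the autocovariances are bounded -/
lemma cov_bdd {d : ℕ → ℝ} {A : ℝ} (hA : ∀ N : ℕ, ∑ n ∈ Icc 1 N, d n ^ 4 ≤ A * N) {C : ℝ}
    (hC : ∀ᶠ N : ℕ in atTop, cov d 0 N ≤ C) (j : ℕ) :
    ∀ᶠ N : ℕ in atTop, |cov d j N| ≤ C + 1 := by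
  have hd := sq_div_tendsto hA
  have h1 := shift_mean (g := fun n => d n ^ 2) hd j
  have h2 : ∀ᶠ N : ℕ in atTop, (1 / N : ℝ) * ∑ n ∈ Icc 1 N, d (n + j) ^ 2 -
      (1 / N : ℝ) * ∑ n ∈ Icc 1 N, d n ^ 2 < 1 := h1.eventually_lt_const one_pos
  filter_upwards [h2, hC] with N h2 h3
  have e : cov d 0 N = (1 / N : ℝ) * ∑ n ∈ Icc 1 N, d n ^ 2 := by
    unfold cov
    simp only [add_zero, sq]
  rw [e] at h3
  have hN : (0 : ℝ) ≤ 1 / N := by positivity
  have h4 : |∑ n ∈ Icc 1 N, d n * d (n + j)| ≤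
      (∑ n ∈ Icc 1 N, d n ^ 2 + ∑ n ∈ Icc 1 N, d (n + j) ^ 2) / 2 := by
    refine (Finset.abs_sum_le_sum_abs _ _).trans ?_
    rw [← Finset.sum_add_distrib, Finset.sum_div]
    refine Finset.sum_le_sum fun n _ => ?_
    rw [abs_mul]
    nlinarith [sq_nonneg (|d n| - |d (n + j)|), sq_abs (d n), sq_abs (d (n + j))]
  unfold cov
  rw [abs_mul, abs_of_nonneg hN]
  calc (1 / N : ℝ) * |∑ n ∈ Icc 1 N, d n * d (n + j)| ≤
      (1 / N : ℝ) * ((∑ n ∈ Icc 1 N, d n ^ 2 + ∑ n ∈ Icc 1 N, d (n + j) ^ 2) / 2) :=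
        mul_le_mul_of_nonneg_left h4 hN
    _ ≤ C + 1 := by
      have : (1 / N : ℝ) * ((∑ n ∈ Icc 1 N, d n ^ 2 + ∑ n ∈ Icc 1 N, d (n + j) ^ 2) / 2) =
        (1 / N : ℝ) * ∑ n ∈ Icc 1 N, d n ^ 2 + ((1 / N : ℝ) * ∑ n ∈ Icc 1 N, d (n + j) ^ 2 -
          (1 / N : ℝ) * ∑ n ∈ Icc 1 N, d n ^ 2) / 2 := by ring
      rw [this]
      linarith

/-- the weights -/
noncomputable def wt (r R j : ℕ) : ℝ := r - r * j / R - max ((r : ℝ) - j) 0

lemma wt_nonneg {r R j : ℕ} (hR : 1 ≤ R) (hrR : r ≤ R) (hj : j ≤ R) : 0 ≤ wt r R j := by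
  have hR0 : (0 : ℝ) < R := by exact_mod_cast hR
  have h1 : (r : ℝ) ≤ R := by exact_mod_cast hrR
  have h2 : (j : ℝ) ≤ R := by exact_mod_cast hj
  have hj0 : (0 : ℝ) ≤ j := Nat.cast_nonneg j
  have hr0 : (0 : ℝ) ≤ r := Nat.cast_nonneg r
  unfold wt
  rcases le_total (r : ℝ) j with h | h
  · rw [max_eq_right (by linarith)]
    have : (r : ℝ) * j / R ≤ r := by
      rw [div_le_iff₀ hR0]
      exact mul_le_mul_of_nonneg_left h2 hr0
    linarith
  · rw [max_eq_left (by linarith)]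
    have : (r : ℝ) * j / R ≤ j := by
      rw [div_le_iff₀ hR0]
      rw [mul_comm]
      exact mul_le_mul_of_nonneg_left h1 hj0
    linarith

lemma wt_le_left {r R j : ℕ} (hR : 1 ≤ R) : wt r R j ≤ j := by
  have hR0 : (0 : ℝ) < R := by exact_mod_cast hR
  have hj0 : (0 : ℝ) ≤ j := Nat.cast_nonneg j
  have hr0 : (0 : ℝ) ≤ r := Nat.cast_nonneg r
  have h3 : 0 ≤ (r : ℝ) * j / R := by positivity
  unfold wt
  have := le_max_left ((r : ℝ) - j) 0
  linarith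

lemma wt_le_right {r R j : ℕ} (hR : 1 ≤ R) : wt r R j ≤ r := by
  have hR0 : (0 : ℝ) < R := by exact_mod_cast hR
  have hj0 : (0 : ℝ) ≤ j := Nat.cast_nonneg j
  have hr0 : (0 : ℝ) ≤ r := Nat.cast_nonneg r
  have h3 : 0 ≤ (r : ℝ) * j / R := by positivity
  unfold wt
  have := le_max_right ((r : ℝ) - j) 0
  linarith

lemma W_sub (d : ℕ → ℝ) {r R : ℕ} (hR : 1 ≤ R) (hrR : r ≤ R) (N : ℕ) :
    (r / R : ℝ) * W d R N - W d r N = 2 * ∑ j ∈ Ico 1 R, wt r R j * cov d j N := by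
  have hR0 : (0 : ℝ) < R := by exact_mod_cast hR
  have h1 : ∑ j ∈ Ico 1 r, ((r : ℝ) - j) * cov d j N =
      ∑ j ∈ Ico 1 R, max ((r : ℝ) - j) 0 * cov d j N := by
    rw [← Finset.sum_subset (Finset.Ico_subset_Ico_right hrR)]
    · refine Finset.sum_congr rfl fun j hj => ?_
      have : (j : ℝ) ≤ r := by
        have := (mem_Ico.1 hj).2
        exact_mod_cast this.le
      rw [max_eq_left (by linarith)]
    · intro j hj hj'
      have : (r : ℝ) ≤ j := by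
        rw [mem_Ico] at hj hj'
        have : r ≤ j := by
          by_contra h
          exact hj' ⟨hj.1, by omega⟩
        exact_mod_cast this
      rw [max_eq_right (by linarith), zero_mul]
  unfold W
  rw [h1]
  have h2 : ∑ j ∈ Ico 1 R, wt r R j * cov d j N =
      (r / R : ℝ) * ∑ j ∈ Ico 1 R, ((R : ℝ) - j) * cov d j N -
        ∑ j ∈ Ico 1 R, max ((r : ℝ) - j) 0 * cov d j N := by
    rw [Finset.mul_sum, ← Finset.sum_sub_distrib]
    refine Finset.sum_congr rfl fun j _ => ?_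
    unfold wt
    field_simp
  rw [h2]
  field_simp
  ring

lemma sum_wt {r R : ℕ} (hr : 1 ≤ r) (hrR : r ≤ R) (J : ℕ) (hJ : 1 ≤ J) :
    ∑ j ∈ Ico J R, wt r R j / (j : ℝ) ^ 2 ≤ 3 + Real.log r := by
  have hR : 1 ≤ R := hr.trans hrR
  have hr0 : (0 : ℝ) < r := by exact_mod_cast hr
  have h0 : ∑ j ∈ Ico J R, wt r R j / (j : ℝ) ^ 2 ≤ ∑ j ∈ Ico 1 R, wt r R j / (j : ℝ) ^ 2 := by
    refine Finset.sum_le_sum_of_subset_of_nonneg (Finset.Ico_subset_Ico_left hJ) fun j hj _ => ?_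
    have := wt_nonneg (r := r) hR hrR (mem_Ico.1 hj).2.le
    positivity
  refine h0.trans ?_
  rw [← Finset.sum_Ico_consecutive _ hr hrR]
  have h1 : ∑ j ∈ Ico 1 r, wt r R j / (j : ℝ) ^ 2 ≤ 1 + Real.log r := by
    have h2 : ∑ j ∈ Ico 1 r, wt r R j / (j : ℝ) ^ 2 ≤ ∑ j ∈ Icc 1 r, (j : ℝ)⁻¹ := by
      have h3 : ∀ j ∈ Ico 1 r, wt r R j / (j : ℝ) ^ 2 ≤ (j : ℝ)⁻¹ := by
        intro j hj
        have hj0 : (0 : ℝ) < j := by exact_mod_cast (mem_Ico.1 hj).1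
        rw [div_le_iff₀ (by positivity)]
        calc wt r R j ≤ j := wt_le_left hR
          _ = (j : ℝ)⁻¹ * j ^ 2 := by field_simp
      refine (Finset.sum_le_sum h3).trans ?_
      refine Finset.sum_le_sum_of_subset_of_nonneg ?_ fun j _ _ => by positivity
      exact Finset.Ico_subset_Icc_self
    refine h2.trans ?_
    have h4 := harmonic_le_one_add_log r
    rw [harmonic_eq_sum_Icc] at h4
    push_cast at h4
    exact h4
  have h2 : ∑ j ∈ Ico r R, wt r R j / (j : ℝ) ^ 2 ≤ 2 := by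
    have h3 : ∑ j ∈ Ico r R, wt r R j / (j : ℝ) ^ 2 ≤ ∑ j ∈ Ioo (r - 1) R, (r : ℝ) * ((j : ℝ) ^ 2)⁻¹ := by
      have e : Ioo (r - 1) R = Ico r R := by
        ext j
        rw [mem_Ioo, mem_Ico]
        omega
      rw [e]
      refine Finset.sum_le_sum fun j hj => ?_
      rw [div_eq_mul_inv]
      apply mul_le_mul_of_nonneg_right (wt_le_right hR) (by positivity)
    refine h3.trans ?_
    rw [← Finset.mul_sum]
    have h4 := sum_Ioo_inv_sq_le (α := ℝ) (r - 1) R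
    have h5 : ((r - 1 : ℕ) : ℝ) + 1 = r := by
      rw [Nat.cast_sub hr]
      push_cast
      ring
    rw [h5] at h4
    calc (r : ℝ) * ∑ i ∈ Ioo (r - 1) R, ((i : ℝ) ^ 2)⁻¹ ≤ r * (2 / r) :=
          mul_le_mul_of_nonneg_left h4 hr0.le
      _ = 2 := by field_simp
  linarith

/-- **Negative correlations at large lags.** -/
theorem neg_far {d : ℕ → ℝ} {A : ℝ} (hA : ∀ N : ℕ, ∑ n ∈ Icc 1 N, d n ^ 4 ≤ A * N) {c C : ℝ}
    (hc : 0 < c) (hC : 0 < C)
    (hW : ∀ r : ℕ, 1 ≤ r → ∀ᶠ N : ℕ in atTop,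
      c * (1 + Real.log r) ≤ W d r N ∧ W d r N ≤ C * (1 + Real.log r)) (J : ℕ) (hJ : 1 ≤ J) :
    ∃ J' : ℕ, J ≤ J' ∧ ∀ᶠ N : ℕ in atTop, ∃ j : ℕ, J ≤ j ∧ j ≤ J' ∧
      cov d j N ≤ -(c / 8) / (j : ℝ) ^ 2 := by
  have hC0 : ∀ᶠ N : ℕ in atTop, cov d 0 N ≤ C := by
    filter_upwards [hW 1 le_rfl] with N hN
    rw [cov_zero]
    simpa using hN.2
  obtain ⟨r, hr⟩ : ∃ r : ℕ, J ≤ r ∧ 2 ≤ r ∧ 8 * C / c ≤ r ∧
      Real.exp (4 * (C + 1) * J ^ 2 / c + 1) ≤ r := by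
    obtain ⟨r, hr⟩ := exists_nat_ge (max (8 * C / c) (Real.exp (4 * (C + 1) * J ^ 2 / c + 1)))
    refine ⟨max r (max J 2), (le_max_left _ _).trans (le_max_right _ _),
      (le_max_right _ _).trans (le_max_right _ _), ?_, ?_⟩
    · exact ((le_max_left _ _).trans hr).trans (by exact_mod_cast le_max_left _ _)
    · exact ((le_max_right _ _).trans hr).trans (by exact_mod_cast le_max_left _ _)
  obtain ⟨hJr, hr2, hrC, hrE⟩ := hr
  have hr1 : 1 ≤ r := by omega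
  have hr0 : (0 : ℝ) < r := by exact_mod_cast hr1
  obtain ⟨R, hR⟩ : ∃ R : ℕ, R = r ^ 2 := ⟨_, rfl⟩
  have hrR : r ≤ R := by
    rw [hR]
    nlinarith
  have hR1 : 1 ≤ R := hr1.trans hrR
  have hR0 : (0 : ℝ) < R := by exact_mod_cast hR1
  have hcR : (R : ℝ) = (r : ℝ) ^ 2 := by
    rw [hR]
    push_cast
    ring
  have hlr : 4 * (C + 1) * J ^ 2 / c + 1 ≤ Real.log r := by
    rw [← Real.log_exp (4 * (C + 1) * J ^ 2 / c + 1)]
    exact Real.log_le_log (Real.exp_pos _) hrE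
  have hlR : Real.log R = 2 * Real.log r := by
    rw [hcR, Real.log_pow]
    push_cast
    ring
  have hbd : ∀ᶠ N : ℕ in atTop, ∀ j ∈ Finset.range J, |cov d j N| ≤ C + 1 := by
    rw [eventually_all_finset]
    intro j _
    exact cov_bdd hA hC0 j
  refine ⟨R, hJr.trans hrR, ?_⟩
  filter_upwards [hbd, hW r hr1, hW R hR1] with N hb h1 h2
  by_contra hcon
  push Not at hcon
  have h3 := W_sub d hR1 hrR N
  have h4 : -((C + 1) * J ^ 2) ≤ ∑ j ∈ Ico 1 J, wt r R j * cov d j N := by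
    have h5 : ∀ j ∈ Ico 1 J, -((C + 1) * J) ≤ wt r R j * cov d j N := by
      intro j hj
      rw [mem_Ico] at hj
      have h6 := hb j (mem_range.2 hj.2)
      have h7 : wt r R j ≤ J := (wt_le_left hR1).trans (by exact_mod_cast hj.2.le)
      have h8 : 0 ≤ wt r R j := wt_nonneg hR1 hrR (by omega)
      have h9 := neg_abs_le (wt r R j * cov d j N)
      rw [abs_mul, abs_of_nonneg h8] at h9
      have h10 : wt r R j * |cov d j N| ≤ J * (C + 1) :=
        mul_le_mul h7 h6 (abs_nonneg _) (Nat.cast_nonneg _)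
      linarith
    have h6 := Finset.sum_le_sum h5
    rw [Finset.sum_const, Nat.card_Ico, nsmul_eq_mul] at h6
    refine le_trans ?_ h6
    have h7 : ((J - 1 : ℕ) : ℝ) ≤ J := by exact_mod_cast Nat.sub_le J 1
    have h8 : (0 : ℝ) ≤ (C + 1) * J := by positivity
    nlinarith [mul_le_mul_of_nonneg_right h7 h8]
  have h5 : -(c / 8) * (3 + Real.log r) ≤ ∑ j ∈ Ico J R, wt r R j * cov d j N := by
    have h6 : ∀ j ∈ Ico J R, -(c / 8) * (wt r R j / (j : ℝ) ^ 2) ≤ wt r R j * cov d j N := by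
      intro j hj
      rw [mem_Ico] at hj
      have h7 := (hcon j hj.1 hj.2.le).le
      have h8 : 0 ≤ wt r R j := wt_nonneg hR1 hrR hj.2.le
      calc -(c / 8) * (wt r R j / (j : ℝ) ^ 2) = wt r R j * (-(c / 8) / (j : ℝ) ^ 2) := by ring
        _ ≤ _ := mul_le_mul_of_nonneg_left h7 h8
    refine le_trans ?_ (Finset.sum_le_sum h6)
    rw [← Finset.mul_sum]
    exact mul_le_mul_of_nonpos_left (sum_wt hr1 hrR J hJ) (by linarith)
  have h6 : ∑ j ∈ Ico 1 J, wt r R j * cov d j N + ∑ j ∈ Ico J R, wt r R j * cov d j N =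
      ∑ j ∈ Ico 1 R, wt r R j * cov d j N :=
    Finset.sum_Ico_consecutive _ hJ (hJr.trans hrR)
  have h7 : (r / R : ℝ) * W d R N ≤ c / 4 * (1 + Real.log r) := by
    have hl0 : 0 ≤ Real.log r := Real.log_nonneg (by exact_mod_cast hr1)
    have h8 : (r / R : ℝ) = 1 / r := by
      rw [hcR]
      field_simp
    rw [h8]
    have h9 := h2.2
    rw [hlR] at h9
    have h10 : W d R N ≤ 2 * C * (1 + Real.log r) := by nlinarith
    have h11 : (1 / r : ℝ) * W d R N ≤ (1 / r : ℝ) * (2 * C * (1 + Real.log r)) :=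
      mul_le_mul_of_nonneg_left h10 (by positivity)
    refine h11.trans ?_
    rw [div_le_iff₀ hc] at hrC
    rw [one_div, inv_mul_le_iff₀ hr0]
    have : 2 * C ≤ r * (c / 4) := by linarith
    nlinarith [mul_le_mul_of_nonneg_right this (show 0 ≤ 1 + Real.log r by linarith)]
  have h8 : c * (Real.log r - 1) ≥ 4 * (C + 1) * J ^ 2 := by
    have := mul_le_mul_of_nonneg_left hlr hc.le
    have h9 : c * (4 * (C + 1) * J ^ 2 / c + 1) = 4 * (C + 1) * J ^ 2 + c := by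
      field_simp
    linarith
  nlinarith [h1.1, h2.1]

end Pool.Agent.Q85.Cor
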