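import Mathlib

set_option autoImplicit false

/-! # Autocovariances of sequences and the variance of sums of consecutive terms -/

open Filter Topology Finset

namespace Pool.Agent.Q85.Cor

/-- the empirical autocovariance at lag `j` -/
noncomputable def cov (d : ℕ → ℝ) (j N : ℕ) : ℝ := (1 / N : ℝ) * ∑ n ∈ Icc 1 N, d n * d (n + j)

/-- the Fejér sum `r C_0 + 2 ∑ (r - j) C_j` -/
noncomputable def W (d : ℕ → ℝ) (r N : ℕ) : ℝ :=
  r * cov d 0 N + 2 * ∑ j ∈ Ico 1 r, ((r : ℝ) - j) * cov d j N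

lemma toep (f : ℕ → ℝ) (r : ℕ) :
    ∑ i ∈ range r, ∑ k ∈ range r, f (Nat.dist i k) =
      r * f 0 + 2 * ∑ j ∈ Ico 1 r, ((r : ℝ) - j) * f j := by
  induction r with
  | zero => simp
  | succ r ih =>
    have h1 : ∑ i ∈ range (r + 1), ∑ k ∈ range (r + 1), f (Nat.dist i k) =
        ∑ i ∈ range r, ∑ k ∈ range r, f (Nat.dist i k) + 2 * ∑ i ∈ range r, f (Nat.dist i r) +
          f 0 := by
      rw [Finset.sum_range_succ]
      have h2 : ∀ i ∈ range r, ∑ k ∈ range (r + 1), f (Nat.dist i k) =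
          ∑ k ∈ range r, f (Nat.dist i k) + f (Nat.dist i r) := fun i _ => Finset.sum_range_succ _ _
      rw [Finset.sum_congr rfl h2, Finset.sum_add_distrib, Finset.sum_range_succ, Nat.dist_self]
      have h3 : ∑ k ∈ range r, f (Nat.dist r k) = ∑ i ∈ range r, f (Nat.dist i r) :=
        Finset.sum_congr rfl fun i _ => by rw [Nat.dist_comm]
      rw [h3]
      ring
    have h4 : ∑ i ∈ range r, f (Nat.dist i r) = ∑ j ∈ Ico 1 (r + 1), f j := by
      rw [Finset.sum_Ico_eq_sum_range, Nat.add_sub_cancel, ← Finset.sum_range_reflect]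
      refine Finset.sum_congr rfl fun i hi => ?_
      rw [mem_range] at hi
      congr 1
      rw [Nat.dist_eq_sub_of_le (by omega)]
      omega
    have h5 : ∑ j ∈ Ico 1 (r + 1), (((r + 1 : ℕ) : ℝ) - j) * f j =
        ∑ j ∈ Ico 1 r, ((r : ℝ) - j) * f j + ∑ j ∈ Ico 1 (r + 1), f j := by
      have h6 : ∑ j ∈ Ico 1 (r + 1), (((r + 1 : ℕ) : ℝ) - j) * f j =
          ∑ j ∈ Ico 1 (r + 1), ((r : ℝ) - j) * f j + ∑ j ∈ Ico 1 (r + 1), f j := by
        rw [← Finset.sum_add_distrib]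
        refine Finset.sum_congr rfl fun j _ => ?_
        push_cast
        ring
      rw [h6]
      congr 1
      rcases Nat.eq_zero_or_pos r with h | h
      · subst h
        simp
      · rw [Finset.sum_Ico_succ_top (by omega)]
        simp
    rw [h1, ih, h4, h5]
    push_cast
    ring

/-- the terms are `o(√N)` -/
lemma sq_div_tendsto {d : ℕ → ℝ} {A : ℝ} (hA : ∀ N : ℕ, ∑ n ∈ Icc 1 N, d n ^ 4 ≤ A * N) :
    Tendsto (fun n : ℕ => d n ^ 2 / n) atTop (𝓝 0) := by
  have hA0 : 0 ≤ A := by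
    have := hA 1
    have h1 : 0 ≤ ∑ n ∈ Icc 1 1, d n ^ 4 := Finset.sum_nonneg fun _ _ => by positivity
    have h2 := h1.trans this
    simpa using h2
  have h1 : ∀ n : ℕ, 1 ≤ n → |d n ^ 2 / n| ≤ Real.sqrt A * Real.sqrt (1 / n) := by
    intro n hn
    have hn0 : (0 : ℝ) < n := by exact_mod_cast hn
    have h2 : d n ^ 4 ≤ A * n :=
      (Finset.single_le_sum (f := fun n => d n ^ 4) (fun _ _ => by positivity)
        (Finset.mem_Icc.2 ⟨hn, le_rfl⟩)).trans (hA n)
    rw [abs_of_nonneg (by positivity), ← Real.sqrt_mul hA0]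
    apply Real.le_sqrt_of_sq_le
    rw [div_pow, div_le_iff₀ (by positivity)]
    calc (d n ^ 2) ^ 2 = d n ^ 4 := by ring
      _ ≤ A * n := h2
      _ = A * (1 / n) * n ^ 2 := by field_simp
  have h2 : Tendsto (fun n : ℕ => Real.sqrt A * Real.sqrt (1 / n)) atTop (𝓝 0) := by
    have h3 : Tendsto (fun n : ℕ => (1 / n : ℝ)) atTop (𝓝 0) := tendsto_one_div_atTop_nhds_zero_nat
    have h4 := (Real.continuous_sqrt.tendsto 0).comp h3
    rw [Real.sqrt_zero] at h4
    simpa using h4.const_mul (Real.sqrt A)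
  rw [tendsto_zero_iff_abs_tendsto_zero]
  refine squeeze_zero' (Eventually.of_forall fun n => abs_nonneg _) ?_ h2
  filter_upwards [eventually_ge_atTop 1] with n hn using h1 n hn

lemma shift_div {g : ℕ → ℝ} (hg : Tendsto (fun n : ℕ => g n / n) atTop (𝓝 0)) (c : ℕ) :
    Tendsto (fun n : ℕ => g (n + c) / n) atTop (𝓝 0) := by
  have h1 : Tendsto (fun n : ℕ => g (n + c) / ((n + c : ℕ) : ℝ)) atTop (𝓝 0) :=
    (tendsto_add_atTop_iff_nat c).2 hg
  have h2 : Tendsto (fun n : ℕ => (((n + c : ℕ) : ℝ)) / n) atTop (𝓝 1) := by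
    have h3 : Tendsto (fun n : ℕ => 1 + c * (1 / n : ℝ)) atTop (𝓝 (1 + c * 0)) :=
      (tendsto_one_div_atTop_nhds_zero_nat.const_mul (c : ℝ)).const_add 1
    rw [mul_zero, add_zero] at h3
    refine h3.congr' ?_
    filter_upwards [eventually_gt_atTop 0] with n hn
    have hn0 : (0 : ℝ) < n := by exact_mod_cast hn
    push_cast
    field_simp
  have h3 := h1.mul h2
  rw [zero_mul] at h3
  refine h3.congr' ?_
  filter_upwards [eventually_gt_atTop 0] with n hn
  have hn0 : (0 : ℝ) < n := by exact_mod_cast hn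
  have hn1 : (0 : ℝ) < ((n + c : ℕ) : ℝ) := by positivity
  field_simp

lemma shift_mean {g : ℕ → ℝ} (hg : Tendsto (fun n : ℕ => g n / n) atTop (𝓝 0)) (i : ℕ) :
    Tendsto (fun N : ℕ => (1 / N : ℝ) * ∑ n ∈ Icc 1 N, g (n + i) -
      (1 / N : ℝ) * ∑ n ∈ Icc 1 N, g n) atTop (𝓝 0) := by
  induction i with
  | zero => simp
  | succ i ih =>
    have h1 : ∀ N : ℕ, ∑ n ∈ Icc 1 N, g (n + (i + 1)) - ∑ n ∈ Icc 1 N, g (n + i) =
        g (N + (i + 1)) - g (i + 1) := by
      intro N
      induction N with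
      | zero => simp
      | succ N ih =>
        rw [Finset.sum_Icc_succ_top (by omega), Finset.sum_Icc_succ_top (by omega)]
        have e : N + 1 + i = N + (i + 1) := by omega
        rw [e]
        linarith
    have h2 : Tendsto (fun N : ℕ => g (N + (i + 1)) / N - g (i + 1) * (1 / N : ℝ)) atTop (𝓝 0) := by
      have h3 := (shift_div hg (i + 1)).sub
        (tendsto_one_div_atTop_nhds_zero_nat.const_mul (g (i + 1)))
      simpa using h3
    have h4 := ih.add h2
    rw [add_zero] at h4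
    refine h4.congr fun N => ?_
    have := h1 N
    have h5 : ∑ n ∈ Icc 1 N, g (n + (i + 1)) = ∑ n ∈ Icc 1 N, g (n + i) +
      (g (N + (i + 1)) - g (i + 1)) := by linarith
    rw [h5]
    ring

lemma prod_div {d : ℕ → ℝ} (hd : Tendsto (fun n : ℕ => d n ^ 2 / n) atTop (𝓝 0)) (j : ℕ) :
    Tendsto (fun n : ℕ => d n * d (n + j) / n) atTop (𝓝 0) := by
  have h1 := hd.add (shift_div (g := fun n => d n ^ 2) hd j)
  rw [add_zero] at h1
  rw [tendsto_zero_iff_abs_tendsto_zero]
  refine squeeze_zero (fun n => abs_nonneg _) (fun n => ?_) h1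
  have hn : (0 : ℝ) ≤ n := Nat.cast_nonneg n
  simp only [Function.comp]
  rw [abs_div, abs_of_nonneg hn, ← add_div]
  apply div_le_div_of_nonneg_right _ hn
  rw [abs_mul]
  nlinarith [sq_nonneg (|d n| - |d (n + j)|), sq_abs (d n), sq_abs (d (n + j)),
    mul_nonneg (abs_nonneg (d n)) (abs_nonneg (d (n + j)))]

/-- the variance of sums of `r` consecutive terms -/
theorem var_sub_W {d : ℕ → ℝ} {A : ℝ} (hA : ∀ N : ℕ, ∑ n ∈ Icc 1 N, d n ^ 4 ≤ A * N) (r : ℕ) :
    Tendsto (fun N : ℕ => (1 / N : ℝ) * ∑ n ∈ Icc 1 N, (∑ i ∈ range r, d (n + i)) ^ 2 - W d r N)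
      atTop (𝓝 0) := by
  have hd := sq_div_tendsto hA
  have key : ∀ i k : ℕ, Tendsto (fun N : ℕ => (1 / N : ℝ) * ∑ n ∈ Icc 1 N, d (n + i) * d (n + k) -
      cov d (Nat.dist i k) N) atTop (𝓝 0) := by
    have h1 : ∀ i k : ℕ, i ≤ k → Tendsto (fun N : ℕ => (1 / N : ℝ) *
        ∑ n ∈ Icc 1 N, d (n + i) * d (n + k) - cov d (Nat.dist i k) N) atTop (𝓝 0) := by
      intro i k hik
      have h2 := shift_mean (g := fun n => d n * d (n + (k - i))) (prod_div hd (k - i)) i
      refine h2.congr fun N => ?_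
      unfold cov
      rw [Nat.dist_eq_sub_of_le hik]
      congr 2
      refine Finset.sum_congr rfl fun n _ => ?_
      have : n + i + (k - i) = n + k := by omega
      rw [this]
    intro i k
    rcases le_total i k with h | h
    · exact h1 i k h
    · refine (h1 k i h).congr fun N => ?_
      rw [Nat.dist_comm k i]
      congr 2
      exact Finset.sum_congr rfl fun n _ => mul_comm _ _
  have h3 : Tendsto (fun N : ℕ => ∑ i ∈ range r, ∑ k ∈ range r,
      ((1 / N : ℝ) * ∑ n ∈ Icc 1 N, d (n + i) * d (n + k) - cov d (Nat.dist i k) N))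
      atTop (𝓝 (∑ i ∈ range r, ∑ k ∈ range r, 0)) :=
    tendsto_finsetSum _ fun i _ => tendsto_finsetSum _ fun k _ => key i k
  simp only [Finset.sum_const_zero] at h3
  refine h3.congr fun N => ?_
  have h4 := toep (fun j => cov d j N) r
  unfold W
  rw [← h4]
  simp only [Finset.sum_sub_distrib, ← Finset.mul_sum]
  congr 2
  have h5 : ∀ n, (∑ i ∈ range r, d (n + i)) ^ 2 =
      ∑ i ∈ range r, ∑ k ∈ range r, d (n + i) * d (n + k) := by
    intro n
    rw [sq, Finset.sum_mul_sum]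
  simp only [h5]
  rw [Finset.sum_comm' (s := Icc 1 N) (t := fun _ => range r) (t' := range r)
    (s' := fun _ => Icc 1 N) (by intros; tauto)]
  refine Finset.sum_congr rfl fun i _ => ?_
  rw [Finset.sum_comm]

end Pool.Agent.Q85.Cor
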