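import Pool.Agent.Q85.Cor.Far
import Pool.Agent.Q31.GV.Ge
import Pool.Agent.Q173.GM.Trans

set_option autoImplicit false

/-! # Autocovariances of the gaps between the zeta zeros -/

open Filter Topology Finset

namespace Pool.Agent.Q85.Cor

open Pool.Agent.Q173.GM (dt dt_le dt_ge finite_part)
open Pool.Agent.Y743.LR (dl)

lemma dl_eq (n : ℕ) : Pool.Agent.Y747.dl n = dl n := by
  unfold Pool.Agent.Y747.dl Pool.Agent.Y743.LR.dl
  ring

lemma dt_sub (hRH : RiemannHypothesis) (η : ℝ) (hη : 0 < η) : ∃ n0 : ℕ, 1 ≤ n0 ∧ ∀ n : ℕ, n0 ≤ n →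
    0 ≤ dl n ∧ dl n ≤ dt n ∧ dt n ≤ (1 + η) * dl n := by
  obtain ⟨n1, h11, h1⟩ := Pool.Agent.Q31.GP.dl_nonneg
  obtain ⟨n2, h2⟩ := dt_le hRH η hη
  refine ⟨max n1 n2, h11.trans (le_max_left _ _), fun n hn => ?_⟩
  have g1 := h1 n ((le_max_left _ _).trans hn)
  have g2 := h2 n ((le_max_right _ _).trans hn)
  have g3 := dt_ge (h11.trans ((le_max_left _ _).trans hn))
  rw [dl_eq] at g2 g3
  exact ⟨g1, g3, g2⟩

/-- fourth moments -/
lemma mom4 (hRH : RiemannHypothesis) : ∃ A : ℝ, ∀ N : ℕ,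
    ∑ n ∈ Icc 1 N, (dt n - 1) ^ 4 ≤ A * N := by
  obtain ⟨C, hC, hm⟩ := Pool.Agent.Q31.GV.mom hRH 4
  obtain ⟨n0, h01, h0⟩ := dt_sub hRH 1 one_pos
  obtain ⟨K, hK0, hK⟩ := finite_part (n0 := n0) (F := fun n => (dt n - 1) ^ 4)
    (G := fun n => 8 * (16 * |dl n| ^ 4 + 1)) (fun n hn => by
      obtain ⟨g1, g2, g3⟩ := h0 n hn
      have g4 : 0 ≤ dt n := g1.trans g2
      have g5 : dt n ^ 4 ≤ (2 * dl n) ^ 4 := pow_le_pow_left₀ g4 (by linarith) 4
      have g6 : (dt n - 1) ^ 4 ≤ 8 * (dt n ^ 4 + 1) := by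
        nlinarith [sq_nonneg (dt n ^ 2 - 1), sq_nonneg (dt n + 1), sq_nonneg (dt n - 1),
          sq_nonneg ((dt n + 1) ^ 2), mul_nonneg g4 (sq_nonneg (dt n - 1)), pow_nonneg g4 3,
          mul_nonneg g4 (sq_nonneg (dt n))]
      have g7 : (2 * dl n) ^ 4 = 16 * |dl n| ^ 4 := by
        rw [mul_pow, abs_of_nonneg g1]
        norm_num
      rw [g7] at g5
      linarith)
  refine ⟨8 * (16 * C + 1) + K, fun N => ?_⟩
  rcases Nat.eq_zero_or_pos N with hN | hN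
  · subst hN
    simp
  have h1 := hK N
  have h2 := hm N
  have h3 : ∑ n ∈ Icc 1 N, (8 * (16 * |dl n| ^ 4 + 1) : ℝ) =
      8 * (16 * ∑ n ∈ Icc 1 N, |dl n| ^ 4 + N) := by
    rw [← Finset.mul_sum, Finset.sum_add_distrib, ← Finset.mul_sum, Finset.sum_const, Nat.card_Icc,
      Nat.add_sub_cancel, nsmul_eq_mul, mul_one]
  rw [h3] at h1
  have h4 : (1 : ℝ) ≤ N := by exact_mod_cast hN
  nlinarith

lemma e_small (hRH : RiemannHypothesis) (ε : ℝ) (hε : 0 < ε) : ∀ᶠ N : ℕ in atTop,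
    ∑ n ∈ Icc 1 N, (dt n - dl n) ^ 2 ≤ ε * N := by
  obtain ⟨C, hC, hm⟩ := Pool.Agent.Q31.GV.mom hRH 2
  obtain ⟨η, hη⟩ : ∃ η : ℝ, η = min 1 (ε / (2 * C)) := ⟨_, rfl⟩
  have hη0 : 0 < η := by
    rw [hη]
    exact lt_min one_pos (by positivity)
  have hη1 : η ≤ 1 := by
    rw [hη]
    exact min_le_left _ _
  have hη2 : η * C ≤ ε / 2 := by
    have h1 : η ≤ ε / (2 * C) := by
      rw [hη]
      exact min_le_right _ _
    rw [le_div_iff₀ (by positivity)] at h1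
    linarith
  obtain ⟨n0, h01, h0⟩ := dt_sub hRH η hη0
  obtain ⟨K, hK0, hK⟩ := finite_part (n0 := n0) (F := fun n => (dt n - dl n) ^ 2)
    (G := fun n => η * |dl n| ^ 2) (fun n hn => by
      obtain ⟨g1, g2, g3⟩ := h0 n hn
      have g4 : (dt n - dl n) ^ 2 ≤ (η * dl n) ^ 2 :=
        pow_le_pow_left₀ (by linarith) (by linarith) 2
      rw [sq_abs]
      have g5 : (η * dl n) ^ 2 ≤ η * dl n ^ 2 := by
        have : (η * dl n) ^ 2 = η * (η * dl n ^ 2) := by ring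
        rw [this]
        apply mul_le_mul_of_nonneg_left _ hη0.le
        nlinarith [sq_nonneg (dl n)]
      linarith)
  filter_upwards [tendsto_natCast_atTop_atTop.eventually_ge_atTop (K / (ε / 2))] with N hN
  rw [div_le_iff₀ (by positivity)] at hN
  have h1 := hK N
  have h2 := hm N
  rw [← Finset.mul_sum] at h1
  have h3 : η * ∑ n ∈ Icc 1 N, |dl n| ^ 2 ≤ η * (C * N) := mul_le_mul_of_nonneg_left h2 hη0.le
  have h4 : η * (C * N) ≤ ε / 2 * N := by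
    rw [← mul_assoc]
    exact mul_le_mul_of_nonneg_right hη2 (Nat.cast_nonneg N)
  linarith

lemma win_small (hRH : RiemannHypothesis) (r : ℕ) (ε : ℝ) (hε : 0 < ε) : ∀ᶠ N : ℕ in atTop,
    ∑ n ∈ Icc 1 N, (∑ i ∈ range r, (dt (n + i) - dl (n + i))) ^ 2 ≤ ε * N := by
  have h1 := e_small hRH (ε / (2 * (r ^ 2 + 1))) (by positivity)
  have h2 : ∀ᶠ N : ℕ in atTop, ∑ n ∈ Icc 1 (N + r), (dt n - dl n) ^ 2 ≤
      ε / (2 * (r ^ 2 + 1)) * ((N + r : ℕ) : ℝ) := (tendsto_add_atTop_nat r).eventually h1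
  filter_upwards [h2, eventually_ge_atTop r] with N h2 hN
  have h3 : ∑ n ∈ Icc 1 N, (∑ i ∈ range r, (dt (n + i) - dl (n + i))) ^ 2 ≤
      ∑ n ∈ Icc 1 N, (r : ℝ) * ∑ i ∈ range r, (dt (n + i) - dl (n + i)) ^ 2 := by
    refine Finset.sum_le_sum fun n _ => ?_
    have := sq_sum_le_card_mul_sum_sq (s := range r) (f := fun i => dt (n + i) - dl (n + i))
    rwa [card_range] at this
  rw [← Finset.mul_sum, Finset.sum_comm] at h3
  have h4 : ∀ i ∈ range r, ∑ n ∈ Icc 1 N, (dt (n + i) - dl (n + i)) ^ 2 ≤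
      ∑ n ∈ Icc 1 (N + r), (dt n - dl n) ^ 2 := by
    intro i hi
    refine (Pool.Agent.Q31.GV.shift_le (f := fun n => (dt n - dl n) ^ 2)
      (fun _ => sq_nonneg _) N i).trans ?_
    refine Finset.sum_le_sum_of_subset_of_nonneg (Finset.Icc_subset_Icc le_rfl ?_)
      fun n _ _ => sq_nonneg _
    have := mem_range.1 hi
    omega
  have h5 := Finset.sum_le_sum h4
  rw [Finset.sum_const, card_range, nsmul_eq_mul] at h5
  have hr0 : (0 : ℝ) ≤ r := Nat.cast_nonneg r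
  have h6 : (r : ℝ) * ∑ i ∈ range r, ∑ n ∈ Icc 1 N, (dt (n + i) - dl (n + i)) ^ 2 ≤
      r * (r * (ε / (2 * (r ^ 2 + 1)) * ((N + r : ℕ) : ℝ))) :=
    mul_le_mul_of_nonneg_left (h5.trans (mul_le_mul_of_nonneg_left h2 hr0)) hr0
  have h7 : ((N + r : ℕ) : ℝ) ≤ 2 * N := by
    push_cast
    have : (r : ℝ) ≤ N := by exact_mod_cast hN
    linarith
  have hN0 : (0 : ℝ) ≤ N := Nat.cast_nonneg N
  have h8 : (r : ℝ) * (r * (ε / (2 * (r ^ 2 + 1)) * ((N + r : ℕ) : ℝ))) ≤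
      r * (r * (ε / (2 * (r ^ 2 + 1)) * (2 * N))) := by gcongr
  have h9 : (r : ℝ) * (r * (ε / (2 * (r ^ 2 + 1)) * (2 * N))) = ε * N * (r ^ 2 / (r ^ 2 + 1)) := by
    field_simp
  have h10 : (r : ℝ) ^ 2 / (r ^ 2 + 1) ≤ 1 := by
    rw [div_le_one (by positivity)]
    linarith
  have h11 : ε * N * ((r : ℝ) ^ 2 / (r ^ 2 + 1)) ≤ ε * N * 1 := by gcongr
  linarith

/-- the centred gaps -/
noncomputable def dc (n : ℕ) : ℝ := dt n - 1

/-- two-sided bounds for the Fejér sums of the autocovariances -/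
theorem W_bounds (hRH : RiemannHypothesis) : ∃ c C : ℝ, 0 < c ∧ 0 < C ∧ ∀ r : ℕ, 1 ≤ r →
    ∀ᶠ N : ℕ in atTop, c * (1 + Real.log r) ≤ W dc r N ∧ W dc r N ≤ C * (1 + Real.log r) := by
  obtain ⟨C, hC, hU⟩ := Pool.Agent.Q31.GV.var_le hRH
  obtain ⟨c, hc, hL⟩ := Pool.Agent.Q31.GV.var_ge hRH
  obtain ⟨A, hA⟩ := mom4 hRH
  refine ⟨c / 8, 2 * C + 2 * c, by positivity, by positivity, fun r hr => ?_⟩
  have hlog : 0 ≤ Real.log r := Real.log_nonneg (by exact_mod_cast hr)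
  have hU' := hU r hr
  unfold Pool.Agent.Q31.GV.Vb at hU'
  have hW := var_sub_W (d := dc) hA r
  have hW1 : ∀ᶠ N : ℕ in atTop,
      |(1 / N : ℝ) * ∑ n ∈ Icc 1 N, (∑ i ∈ range r, dc (n + i)) ^ 2 - W dc r N| < c / 8 := by
    have := (tendsto_zero_iff_abs_tendsto_zero _).1 hW
    exact this.eventually_lt_const (by positivity)
  filter_upwards [hU', hL r hr, win_small hRH r (c / 4) (by positivity), hW1,
    eventually_gt_atTop 0] with N h1 h2 h3 h4 hN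
  have hN0 : (0 : ℝ) < N := by exact_mod_cast hN
  have e : ∀ n, ∑ i ∈ range r, dc (n + i) = (Pool.Agent.Q31.GV.SD r n - r) +
      ∑ i ∈ range r, (dt (n + i) - dl (n + i)) := by
    intro n
    unfold dc Pool.Agent.Q31.GV.SD
    rw [Finset.sum_sub_distrib, Finset.sum_sub_distrib, Finset.sum_const, card_range,
      nsmul_eq_mul, mul_one]
    ring
  have h5 : ∑ n ∈ Icc 1 N, (∑ i ∈ range r, dc (n + i)) ^ 2 ≤
      2 * ∑ n ∈ Icc 1 N, (Pool.Agent.Q31.GV.SD r n - r) ^ 2 +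
      2 * ∑ n ∈ Icc 1 N, (∑ i ∈ range r, (dt (n + i) - dl (n + i))) ^ 2 := by
    rw [Finset.mul_sum, Finset.mul_sum, ← Finset.sum_add_distrib]
    refine Finset.sum_le_sum fun n _ => ?_
    rw [e n]
    nlinarith [sq_nonneg ((Pool.Agent.Q31.GV.SD r n - r) -
      ∑ i ∈ range r, (dt (n + i) - dl (n + i)))]
  have h6 : ∑ n ∈ Icc 1 N, (Pool.Agent.Q31.GV.SD r n - r) ^ 2 ≤
      2 * ∑ n ∈ Icc 1 N, (∑ i ∈ range r, dc (n + i)) ^ 2 +
      2 * ∑ n ∈ Icc 1 N, (∑ i ∈ range r, (dt (n + i) - dl (n + i))) ^ 2 := by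
    rw [Finset.mul_sum, Finset.mul_sum, ← Finset.sum_add_distrib]
    refine Finset.sum_le_sum fun n _ => ?_
    rw [e n]
    nlinarith [sq_nonneg ((Pool.Agent.Q31.GV.SD r n - r) +
      2 * ∑ i ∈ range r, (dt (n + i) - dl (n + i)))]
  rw [abs_lt] at h4
  have h7 : c / 4 * (1 + Real.log r) ≤ (1 / N : ℝ) *
      ∑ n ∈ Icc 1 N, (∑ i ∈ range r, dc (n + i)) ^ 2 := by
    rw [one_div, inv_mul_eq_div, le_div_iff₀ hN0]
    have : c / 4 * N ≤ c / 4 * (1 + Real.log r) * N := by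
      have : 0 ≤ c / 4 * Real.log r * N := by positivity
      nlinarith
    linarith
  have h8 : (1 / N : ℝ) * ∑ n ∈ Icc 1 N, (∑ i ∈ range r, dc (n + i)) ^ 2 ≤
      (2 * C + c) * (1 + Real.log r) := by
    rw [one_div, inv_mul_eq_div, div_le_iff₀ hN0]
    have : c / 4 * N ≤ c / 4 * (1 + Real.log r) * N := by
      have : 0 ≤ c / 4 * Real.log r * N := by positivity
      nlinarith
    have h9 : 0 ≤ c * (1 + Real.log r) * N := by positivity
    linarith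
  have h9 : 0 ≤ c * Real.log r := by positivity
  constructor <;> nlinarith

end Pool.Agent.Q85.Cor
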